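import Mathlib
import Pool.Agent.Lib.MP_52097a_pr.Defs
import Pool.Agent.Lib.MP_52097a_pr.Main

/-!
# The number of unlabeled induced subgraphs of `G(n, p)` has a sharp threshold at `p = 1 / n`
-/

open Filter Topology
open Pool.Agent.Lib.MP_52097a_pr

theorem Pool.Agent.Results.MP_52097a_pr.SharpThreshold.result :
    -- below `1 / n`: subexponentially many
    (∀ δ : ℝ, 0 < δ → ∀ p : ℕ → unitInterval,
      (∀ᶠ n : ℕ in atTop, (p n : ℝ) < (1 - δ) / n) →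
      ∀ ε : ℝ, 0 < ε →
        Tendsto (fun n : ℕ => SimpleGraph.binomialRandom (Fin n) (p n)
          {G | (numUnlabeled G : ℝ) ≤ 2 ^ (ε * n)}) atTop (𝓝 1)) ∧
    -- above `1 / n` (and below `1 - 1 / n`): exponentially many
    (∀ δ : ℝ, 0 < δ → ∃ ε : ℝ, 0 < ε ∧ ∀ p : ℕ → unitInterval,
      (∀ᶠ n : ℕ in atTop, (1 + δ) / n < (p n : ℝ) ∧ (p n : ℝ) < 1 - (1 + δ) / n) →
        Tendsto (fun n : ℕ => SimpleGraph.binomialRandom (Fin n) (p n)
          {G | 2 ^ (ε * n) ≤ (numUnlabeled G : ℝ)}) atTop (𝓝 1)) ∧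
    -- the mirror threshold at `1 - 1 / n`: nearly complete graphs are again subexponential
    (∀ δ : ℝ, 0 < δ → ∀ p : ℕ → unitInterval,
      (∀ᶠ n : ℕ in atTop, 1 - (1 - δ) / n < (p n : ℝ)) →
      ∀ ε : ℝ, 0 < ε →
        Tendsto (fun n : ℕ => SimpleGraph.binomialRandom (Fin n) (p n)
          {G | (numUnlabeled G : ℝ) ≤ 2 ^ (ε * n)}) atTop (𝓝 1)) :=
  ⟨fun _ hδ p hp _ hε => below hδ p (hp.mono fun _ h => Or.inl h) hε,
    fun _ hδ => above hδ,
    fun _ hδ p hp _ hε => below hδ p (hp.mono fun _ h => Or.inr h) hε⟩
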